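import Pool.Agent.X252.GKW

/-!
# Group actions and the Künneth standard conjecture with coefficients

Let a finite group `G` act on a smooth projective variety `X` of dimension `n`, and let `H^*` be a Weil
cohomology theory with coefficients in a field `K`. A class is algebraic if it is a `K`-linear
combination of classes of cycles. For a subgroup `H` of `G` we say that the `i`-th Künneth component of
the quotient `X/H` is algebraic if the operator which is `∑_{h ∈ H} h^*` on `H^i(X)` and zero on the
other degrees is given by an algebraic class. Then

* `π_i` is algebraic if no irreducible `K`-linear representation of `G` occurs both in `H^i(X)` and in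
  the sum of the `H^j(X)` for `j ≠ i`, and in general only the representations which occur in both
  matter: if all of them with `H`-fixed vectors have `D_j`-fixed vectors for some `j`, and the
  component is algebraic for all `X/D_j`, then it is for `X/H`;
* for an involution `c` the component is algebraic for `X` if and only if it is for `X/c` and
  `X/[G,c]`, and if `c` is contained in a nonabelian simple subgroup, if and only if it is for `X/c`;
* if a subgroup is partitioned into subgroups `D_j`, at least two, then the component is algebraic
  for `X` if and only if it is for all the `X/D_j`;
* if it is not algebraic for `X`, but for all quotients by subgroups of prime order, then some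
  irreducible `K`-linear representation of `G` which occurs in both is fixed point free, the
  subgroups of `G` of order `p q` and the commutative subgroups are cyclic, and `G` has at most one
  involution.
-/

open CategoryTheory Pool.Agent.H914 Pool.Agent.X252.GC Pool.Agent.X252.GKW Pool.Agent.X310.Mu

universe u v

namespace Pool.Agent.Results.MP_a60482_ag.GroupActionsWithCoefficients

/-- **Group actions and the Künneth standard conjecture with coefficients.** -/
theorem result {k : Type u} [Field k] {𝒱 : VarClass k} {ops : CycleOps 𝒱}
    (W : WeilCohomology.{u, v} ops) (X : 𝒱.Obj) {G : Type} [Group G] [Finite G]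
    (a : G →* Aut X) (i : ℕ) :
    (NoCommonAt W a i → KunnethSpan W X i) ∧
    (∀ (H : Subgroup G) (ι : Type) (D : ι → Subgroup G), DominatedAt W a i H D →
      (∀ j, QuotientSpan W a (D j) i) → QuotientSpan W a H i) ∧
    (∀ c : G, c * c = 1 → (KunnethSpan W X i ↔
      QuotientSpan W a (Subgroup.zpowers c) i ∧ QuotientSpan W a (comms c) i)) ∧
    (∀ c : G, InSimple c → c ≠ 1 → c * c = 1 →
      (KunnethSpan W X i ↔ QuotientSpan W a (Subgroup.zpowers c) i)) ∧
    (∀ (ι : Type) (D : ι → Subgroup G) (S : Subgroup G), Partitions S D →
      (KunnethSpan W X i ↔ ∀ j, QuotientSpan W a (D j) i)) ∧
    (¬ KunnethSpan W X i → (∀ P : Subgroup G, (Nat.card P).Prime → QuotientSpan W a P i) →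
      CommonFreeAt W a i ∧ CyclicSubgroups G) :=
  main_span a i

end Pool.Agent.Results.MP_a60482_ag.GroupActionsWithCoefficients
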