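import Pool.Agent.TH133.PW.Kun

/-!
# The Künneth projectors: one pair of classes and one theory at a time

Let `X` be a smooth projective variety of dimension `n` over a field of any characteristic, and `𝒲` a
nonempty set of Weil cohomology theories such that the traces of the algebraic correspondences of
degree zero of `X` on each `H^j(X)` are rational and the same for all theories in `𝒲`: for example
all `ℓ`-adic theories, in every characteristic (comparison in characteristic zero; specialisation to
a finite field and the theorems of Deligne and of Katz and Messing in positive characteristic). Fix
one degree `i`. The following are equivalent.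

1. ONE cycle of codimension `n` on `X × X` with rational coefficients induces the projector onto
   `H^i(X)` for ALL theories in `𝒲`.
2. For ONE theory in `𝒲`, with coefficient field `K`: for all `j ≠ i` and all single classes
   `y ∈ H^i(X)` and `y' ∈ H^j(X)` there is a `K`-linear combination `φ` of algebraic correspondences
   of degree zero, which may depend on `y` and `y'`, such that `φ y = y` and `φ y' = 0`.
3. For ONE theory in `𝒲`: if `j ≠ i` and the class `y × w + y' × w'` on `X × X` (`y`, `w`, `y'`, `w'` of
   degrees `i`, `2 n - i`, `j`, `2 n - j`) is orthogonal to all algebraic cycles of codimension `n`,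
   then `tr (y w) = 0`.
4. For ONE theory in `𝒲`: every subspace of `H(X)` which is stable under the algebraic
   correspondences of degree zero is stable under the projector onto `H^i(X)`.

The proof is in the starting files `Pool/Agent/TH133/PW`, whose theorem had not been handed in.
-/

open Pool.Agent.H914 Pool.Agent.TH122.Km Pool.Agent.TH133.PW

universe u v

namespace Pool.Agent.Results.MP_a60482_ag.OneProjector

/-- **The Künneth projector onto `H^i(X)` is algebraic, by one cycle for all theories, if and only
if classes of degree `i` can be separated from classes of other degrees one pair at a time, for one
theory and with coefficients.** -/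
theorem result {k : Type u} [Field k] {𝒱 : VarClass k} {ops : CycleOps 𝒱} (X : 𝒱.Obj)
    (𝒲 : Set (WeilCohomology.{u, v} ops)) (hne : 𝒲.Nonempty) (h𝒲 : SameTracesAll 𝒲 X) (i : ℕ) :
    List.TFAE [OneProjectorForAll 𝒲 X i, SeparatesForOne 𝒲 X i, DetectsForOne 𝒲 X i,
      SplitForOne 𝒲 X i] :=
  kunneth_one_tfae hne h𝒲 i

end Pool.Agent.Results.MP_a60482_ag.OneProjector
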