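import Pool.Agent.X310.Cen

/-!
# One Künneth projector as the equality case of an inequality

Let `X` be a smooth projective variety of dimension `n` over a field of any characteristic which
satisfies the sign conjecture `C⁺(X)` (for example any `X` over a finite field or its algebraic
closure, but also much more generally) and let `H` be a Weil cohomology theory. Fix a degree `i` and
let `z` be a cycle of codimension `n` on `X × X` with rational coefficients which has the same
intersection numbers with all cycles of codimension `n` as the `i`-th Künneth component of the
diagonal: `z · ᵗb = (-1)^i Tr(b | H^i(X))` for all `b`. Then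

`(-1)^i z · ᵗz ≤ b_i(X)`,

with equality if and only if the `i`-th Künneth component of the diagonal is algebraic (which does
not say that it is the class of `z`). The number `z · ᵗz` only depends on the numerical class of
`z`, which is uniquely determined.
-/

open Pool.Agent.H914 Pool.Agent.H447 Pool.Agent.X310

universe u v

namespace Pool.Agent.Results.MP_a60482_ag.ProjectorInequality

/-- **The `i`-th Künneth projector as the equality case of an inequality for one intersection
number.** -/
theorem result {k : Type u} [Field k] {𝒱 : VarClass k} {ops : CycleOps 𝒱}
    (W : WeilCohomology.{u, v} ops) (X : 𝒱.Obj) (hS : SignStd W X) (i : ℕ)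
    (z : (X.prod X).Cycles) (hz : RepresentsProjector W X i z) :
    (-1) ^ i * interT ops X z z ≤ (W.betti X i : ℚ) ∧
      ((-1) ^ i * interT ops X z z = (W.betti X i : ℚ) ↔ KunnethAt W X i) :=
  projector_criterion hS hz

end Pool.Agent.Results.MP_a60482_ag.ProjectorInequality
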