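import Pool.Agent.X310.Wt10

/-!
# The second moment of the canonical decomposition of the diagonal

Let `X` be a smooth projective variety of dimension `n` over a field of any characteristic. A weight
decomposition of the diagonal of `X` consists of cycles `P_λ` of codimension `n` on `X × X`, for
rational numbers `λ`, almost all numerically trivial, such that up to numerical equivalence
`∑ P_λ = Δ`, the `P_λ` are orthogonal idempotents, `P_(λ + 2 (p - n)) ∘ y = y ∘ P_λ` for all
correspondences `y` of codimension `p` on `X × X`, and `∑ λ (P_λ · ᵗz) = 0` for all numerically
central `z`. It always exists. Let `s(λ)` be the intersection number of `P_λ` with the diagonal.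

We prove that the `s(λ)` are integers, and that for every Weil cohomology theory

`∑_λ λ² |s(λ)| ≤ ∑_j (j - n)² b_j(X)`,

with equality if and only if all Künneth components of the diagonal are algebraic and
`∑_j (j - n) Tr(z | H^j(X)) = 0` for all numerically central `z`; and if there is a divisor `D` with
the hard Lefschetz property, equality holds if and only if the standard conjecture `B` is true for
`D`. So the algebraicity of all Künneth components follows from an equality of two integers, one of
which depends only on intersection numbers of cycles and the other on the Betti numbers.

The proof: let `p` be the complement of a maximal idempotent in the numerically trivial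
correspondences, `C` the operator of `∑ λ P_λ` on `H(X)` and `H` the operator `j - n`. As `C` is a sum
of commutators up to numerical equivalence, and `[C, x] = [H, x]` numerically for all
correspondences `x`, the traces of `H p C` and of `(p C) ^ 2` are equal; therefore the difference of the
two sides of the inequality is a sum of squares.
-/

open Pool.Agent.H914 Pool.Agent.H447 Pool.Agent.X310 Pool.Agent.X310.Wt

universe u v

namespace Pool.Agent.Results.MP_a60482_ag.WeightMoment

/-- **The second moment of the canonical decomposition.** -/
theorem result {k : Type u} [Field k] {𝒱 : VarClass k} {ops : CycleOps 𝒱}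
    (W : WeilCohomology.{u, v} ops) (X : 𝒱.Obj) :
    (∃ Λ P, IsWeightDecomposition ops X Λ P) ∧
    ∀ Λ P, IsWeightDecomposition ops X Λ P →
      (∀ l, ∃ m : ℤ, interT ops X (P l) (diagCyc ops X) = m) ∧
      ∑ l ∈ Λ, l ^ 2 * |interT ops X (P l) (diagCyc ops X)| ≤ totalWeight W X ∧
      (∑ l ∈ Λ, l ^ 2 * |interT ops X (P l) (diagCyc ops X)| = totalWeight W X ↔
        KunnethStd W X ∧ CentralTraceZero W X) ∧
      ∀ D, X.IsCyc 1 D → HardLefschetz W X D →
        (∑ l ∈ Λ, l ^ 2 * |interT ops X (P l) (diagCyc ops X)| = totalWeight W X ↔
          LefschetzB W X D) :=
  ⟨exists_decomposition W X, fun _ _ h => ⟨(moment_main (W := W) h).1, (moment_main h).2.1,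
    (moment_main h).2.2.trans (isKunneth_iff h), fun _ hD hX =>
      (moment_main h).2.2.trans ((isKunneth_iff h).trans ((central_tfae hD hX).out 0 2).symm)⟩⟩

end Pool.Agent.Results.MP_a60482_ag.WeightMoment
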